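import Pool.Agent.H83.G.Targets3

/-! Row BRN of the board `g_modules` (MP_ee74d2_an). -/

set_option autoImplicit false

namespace Pool.Agent.H54.G.BRN

open MeasureTheory Set Pool.Agent.H83.G
open scoped ENNReal NNReal RealInnerProductSpace

private theorem norm_e (x : ℝ) : ‖e x‖ = 1 := by
  unfold e
  rw [Complex.norm_exp_ofReal_mul_I]

private theorem continuous_e : Continuous e := by
  unfold e
  fun_prop

private theorem integrable_e {m : ℕ} {G : Z m → ℂ} (hG : TC G) (z : Z m) :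
    Integrable (fun ζ : Z m => e (ph z ζ) * G ζ) := by
  have h1 : Integrable G := hG.1.continuous.integrable_of_hasCompactSupport hG.2
  refine h1.norm.mono' ?_ (Filter.Eventually.of_forall fun ζ => ?_)
  · refine Continuous.aestronglyMeasurable ?_
    refine (continuous_e.comp ?_).mul hG.1.continuous
    unfold ph
    fun_prop
  · rw [norm_mul, norm_e, one_mul]

private theorem zero_mem (m : ℕ) (s : ℝ) (hs : 0 < s) : (0 : Fin m → ℤ) ∈ Ks m s := by
  unfold Ks
  rw [Fintype.mem_piFinset]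
  intro i
  rw [Finset.mem_Icc]
  have h1 : (0 : ℤ) ≤ ⌈3 * ((m : ℝ) + 1) / s⌉ := Int.ceil_nonneg (by positivity)
  constructor
  · show -⌈3 * ((m : ℝ) + 1) / s⌉ ≤ 0
    omega
  · exact h1

/-- Row BRN -/
theorem pf_BRN (hPUS : T_PUS) (hCPS : T_CPS) (_hSCH : T_SCH) : T_BRN := by
  classical
  intro m β hβ
  obtain ⟨hpu, -, C, hC, hcard, hball, -⟩ := hPUS m
  have hD1 : (0 : ℝ) < (5 : ℝ) ^ m := by positivity
  have hD5 : (1 : ℝ) ≤ (5 : ℝ) ^ m := one_le_pow₀ (by norm_num)
  set D : ℝ := max C 1 with hD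
  have hDC : C ≤ D := le_max_left _ _
  have hD0 : 1 ≤ D := le_max_right _ _
  refine ⟨(4 * D * 5 ^ m)⁻¹, by positivity, ?_, fun K G z hK hG hsup => ?_⟩
  · refine inv_le_one_of_one_le₀ ?_
    nlinarith
  set c : ℝ := (4 * D * 5 ^ m)⁻¹ with hc
  have hc0 : 0 < c := by positivity
  have hK0 : 0 < K := by linarith
  set s : ℝ := K⁻¹ with hs
  have hs0 : 0 < s := by positivity
  have hs1 : s ≤ 1 := inv_le_one_of_one_le₀ hK
  set P : (Fin m → ℤ) → ℂ := fun k => TP β (ctr s k) s G z with hP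
  have hG4 : ∀ ζ, G ζ ≠ 0 → 1 / 4 ≤ ζ.1 := fun ζ h => (hsup ζ h).1
  have hTC : ∀ k, TC (fun ζ => cp β (ctr s k) s ζ * G ζ) := fun k =>
    hCPS m β (ctr s k) s G hβ.1 hs0 hG hG4
  have hsum : TF G z = ∑ k ∈ Ks m s, P k := by
    have h1 : ∀ ζ, G ζ = ∑ k ∈ Ks m s, cp β (ctr s k) s ζ * G ζ := by
      intro ζ
      rw [← Finset.sum_mul]
      by_cases h0 : G ζ = 0
      · rw [h0, mul_zero]
      · obtain ⟨h2, h3⟩ := hsup ζ h0
        have h4 : ‖ζ.1⁻¹ • ζ.2.1‖ ≤ 3 / 2 := by
          rw [norm_smul, norm_inv, Real.norm_eq_abs, abs_of_pos (by linarith),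
            inv_mul_le_iff₀ (by linarith)]
          linarith
        rw [(hpu β s hβ hs0).2 hs1 ζ h4, one_mul]
    have h2 : TF G z = ∫ ζ : Z m, ∑ k ∈ Ks m s, e (ph z ζ) * (cp β (ctr s k) s ζ * G ζ) := by
      unfold TF
      congr 1
      funext ζ
      rw [← Finset.mul_sum, ← h1 ζ]
    rw [h2, integral_finset_sum _ fun k _ => integrable_e (hTC k) z]
    rfl
  set t : ℝ := ‖TF G z‖ with ht
  have ht0 : 0 ≤ t := norm_nonneg _
  have h0mem : (0 : Fin m → ℤ) ∈ Ks m s := zero_mem m s hs0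
  rcases ht0.eq_or_lt with h0 | hpos
  · left
    exact ⟨0, h0mem, by rw [← h0, mul_zero]; exact norm_nonneg _⟩
  set n : ℝ := ((Ks m s).card : ℝ) with hn
  have hn1 : 1 ≤ n := by
    have : 1 ≤ (Ks m s).card := Finset.card_pos.2 ⟨0, h0mem⟩
    rw [hn]
    exact_mod_cast this
  have hnC : n ≤ D * K ^ m := by
    have h1 := hcard s hs0 hs1
    rw [hs, inv_inv] at h1
    exact h1.trans (mul_le_mul_of_nonneg_right hDC (by positivity))
  set Sg : Finset (Fin m → ℤ) := (Ks m s).filter fun k => t / (2 * n) ≤ ‖P k‖ with hSg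
  have hhalf : t / 2 ≤ ∑ k ∈ Sg, ‖P k‖ := by
    have h1 : t ≤ ∑ k ∈ Ks m s, ‖P k‖ := by
      rw [ht, hsum]
      exact norm_sum_le _ _
    have h2 : ∑ k ∈ Ks m s, ‖P k‖ = ∑ k ∈ Sg, ‖P k‖ +
        ∑ k ∈ (Ks m s).filter fun k => ¬ t / (2 * n) ≤ ‖P k‖, ‖P k‖ :=
      (Finset.sum_filter_add_sum_filter_not _ _ _).symm
    have h3 : ∑ k ∈ (Ks m s).filter (fun k => ¬ t / (2 * n) ≤ ‖P k‖), ‖P k‖ ≤ t / 2 := by
      calc ∑ k ∈ (Ks m s).filter (fun k => ¬ t / (2 * n) ≤ ‖P k‖), ‖P k‖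
          ≤ ∑ k ∈ (Ks m s).filter (fun k => ¬ t / (2 * n) ≤ ‖P k‖), t / (2 * n) := by
            refine Finset.sum_le_sum fun k hk => ?_
            exact (not_le.1 (Finset.mem_filter.1 hk).2).le
        _ ≤ ∑ k ∈ Ks m s, t / (2 * n) :=
            Finset.sum_le_sum_of_subset_of_nonneg (Finset.filter_subset _ _)
              fun _ _ _ => by positivity
        _ = n * (t / (2 * n)) := by rw [Finset.sum_const, nsmul_eq_mul]
        _ = t / 2 := by
            have : n ≠ 0 := by linarith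
            field_simp
    linarith
  by_cases hsep : ∃ k1 ∈ Sg, ∃ k2 ∈ Sg, ∃ k3 ∈ Sg, 4 / K ≤ ‖ctr s k1 - ctr s k2‖ ∧
      4 / K ≤ ‖ctr s k1 - ctr s k3‖ ∧ 4 / K ≤ ‖ctr s k2 - ctr s k3‖
  · right
    obtain ⟨k1, hk1, k2, hk2, k3, hk3, h12, h13, h23⟩ := hsep
    have hmem : ∀ k ∈ Sg, k ∈ Ks m s ∧ c * K⁻¹ ^ m * t ≤ ‖P k‖ := by
      intro k hk
      obtain ⟨h1, h2⟩ := Finset.mem_filter.1 hk
      refine ⟨h1, le_trans ?_ h2⟩
      have h3 : c * K⁻¹ ^ m ≤ 1 / (2 * n) := by
        rw [le_div_iff₀ (by positivity)]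
        have h4 : c * D ≤ 1 / 4 := by
          rw [hc]
          have h5 : (4 * D * 5 ^ m)⁻¹ * D = (4 * 5 ^ m)⁻¹ := by
            have : D ≠ 0 := by linarith
            field_simp
          rw [h5, one_div]
          refine inv_anti₀ (by norm_num) ?_
          nlinarith
        have h6 : K⁻¹ ^ m * K ^ m = 1 := by
          rw [← mul_pow, inv_mul_cancel₀ hK0.ne', one_pow]
        calc c * K⁻¹ ^ m * (2 * n) ≤ c * K⁻¹ ^ m * (2 * (D * K ^ m)) := by
              refine mul_le_mul_of_nonneg_left ?_ (by positivity)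
              linarith
          _ = 2 * (c * D) * (K⁻¹ ^ m * K ^ m) := by ring
          _ ≤ 1 := by
              rw [h6]
              linarith
      calc c * K⁻¹ ^ m * t ≤ 1 / (2 * n) * t := mul_le_mul_of_nonneg_right h3 ht0
        _ = t / (2 * n) := by ring
    refine ⟨![k1, k2, k3], ?_, ?_, ?_⟩
    · intro i
      fin_cases i
      · exact (hmem k1 hk1).1
      · exact (hmem k2 hk2).1
      · exact (hmem k3 hk3).1
    · intro i j hij
      fin_cases i <;> fin_cases j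
      · exact absurd rfl hij
      · exact h12
      · exact h13
      · show 4 / K ≤ ‖ctr s k2 - ctr s k1‖
        rw [norm_sub_rev]
        exact h12
      · exact absurd rfl hij
      · exact h23
      · show 4 / K ≤ ‖ctr s k3 - ctr s k1‖
        rw [norm_sub_rev]
        exact h13
      · show 4 / K ≤ ‖ctr s k3 - ctr s k2‖
        rw [norm_sub_rev]
        exact h23
      · exact absurd rfl hij
    · intro i
      fin_cases i
      · exact (hmem k1 hk1).2
      · exact (hmem k2 hk2).2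
      · exact (hmem k3 hk3).2
  · left
    -- two balls
    have hne : Sg.Nonempty := by
      by_contra h
      rw [Finset.not_nonempty_iff_eq_empty] at h
      rw [h, Finset.sum_empty] at hhalf
      linarith
    obtain ⟨k1, hk1⟩ := hne
    have htwo : ∃ k2, ∀ k ∈ Sg, ‖ctr s k - ctr s k1‖ ≤ 4 * s ∨ ‖ctr s k - ctr s k2‖ ≤ 4 * s := by
      have h4 : 4 / K = 4 * s := by rw [hs, div_eq_mul_inv]
      by_cases h : ∀ k ∈ Sg, ‖ctr s k - ctr s k1‖ ≤ 4 * s
      · exact ⟨k1, fun k hk => Or.inl (h k hk)⟩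
      · push Not at h
        obtain ⟨k2, hk2, h2⟩ := h
        refine ⟨k2, fun k hk => ?_⟩
        by_contra h3
        push Not at h3
        apply hsep
        rw [h4]
        refine ⟨k, hk, k1, hk1, k2, hk2, h3.1.le, h3.2.le, ?_⟩
        rw [norm_sub_rev]
        exact h2.le
    obtain ⟨k2, hk2⟩ := htwo
    have hcSg : (Sg.card : ℝ) ≤ 2 * D * 5 ^ m := by
      have h1 : Sg ⊆ (Sg.filter fun k => ‖ctr s k - ctr s k1‖ ≤ 4 * s) ∪
          (Sg.filter fun k => ‖ctr s k - ctr s k2‖ ≤ 4 * s) := by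
        intro k hk
        rcases hk2 k hk with h | h
        · exact Finset.mem_union_left _ (Finset.mem_filter.2 ⟨hk, h⟩)
        · exact Finset.mem_union_right _ (Finset.mem_filter.2 ⟨hk, h⟩)
      have h5 : (1 : ℝ) + 4 * s / s = 5 := by
        field_simp
        norm_num
      have h2 : ∀ x : E m, (((Sg.filter fun k => ‖ctr s k - x‖ ≤ 4 * s)).card : ℝ) ≤
          D * 5 ^ m := by
        intro x
        have h3 := hball s (4 * s) x (Sg.filter fun k => ‖ctr s k - x‖ ≤ 4 * s) hs0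
          (by positivity) (fun k hk => (Finset.mem_filter.1 hk).2)
        rw [h5] at h3
        exact h3.trans (mul_le_mul_of_nonneg_right hDC hD1.le)
      have h3 := (Finset.card_le_card h1).trans (Finset.card_union_le _ _)
      have h4 : (Sg.card : ℝ) ≤
          ((Sg.filter fun k => ‖ctr s k - ctr s k1‖ ≤ 4 * s).card : ℝ) +
          ((Sg.filter fun k => ‖ctr s k - ctr s k2‖ ≤ 4 * s).card : ℝ) := by
        exact_mod_cast h3
      have := h2 (ctr s k1)
      have := h2 (ctr s k2)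
      linarith
    by_contra hcon
    push Not at hcon
    have h1 : ∑ k ∈ Sg, ‖P k‖ < ∑ _k ∈ Sg, c * t := by
      refine Finset.sum_lt_sum_of_nonempty ⟨k1, hk1⟩ fun k hk => ?_
      exact hcon k (Finset.mem_filter.1 hk).1
    rw [Finset.sum_const, nsmul_eq_mul] at h1
    have h2 : (Sg.card : ℝ) * (c * t) ≤ 2 * D * 5 ^ m * (c * t) :=
      mul_le_mul_of_nonneg_right hcSg (by positivity)
    have h3 : 2 * D * 5 ^ m * (c * t) = t / 2 := by
      rw [hc]
      have : D ≠ 0 := by linarith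
      field_simp
      norm_num
    linarith

end Pool.Agent.H54.G.BRN
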